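import Pool.Agent.ATZ.Stmts1
import Pool.Agent.Helper92_AT5.GL5

/-!
# Squad ATZ, row ZIN: the numbers `|V| (χ, ψ)_z` are integral and conjugate for the powers of `z`
-/

set_option autoImplicit false

open scoped BigOperators

noncomputable section

namespace Pool.Agent.PP.TB.H76

open Pool.Agent.Helper51_AWC Pool.Agent.Helper79_WRA Pool.Agent.PP Pool.Agent.PP.KF
open Pool.Agent.PP.K9 Pool.Agent.PP.K9.H97 Pool.Agent.PP.H75 Pool.Agent.PP.T3 Pool.Agent.PP.T2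
open Pool.Agent.PP.T5

attribute [local instance] Ideal.Quotient.field

/-- ZIN -/
theorem zin (zcp : ZcpStmt) (inq : InqStmt) (lbx : LbxStmt) : ZinStmt := by
  intro ℓ hfact M _ hM G _ _ e V Z γ b hZ z hz a ha hza ζ hζ χ hχ ψ hψ
  classical
  have := Fintype.ofFinite G
  have := Fintype.ofFinite (Cu z)
  have hp : ℓ.Prime := Fact.out
  have hzV : z ∈ V := hZ.le hz
  have hcz : ∀ v ∈ V, v * z = z * v := fun v hv => hZ.cen z hz v hv
  have hL : Lb ℓ e V z (b z) := (hZ.lb z hz).1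
  obtain ⟨b', hb'⟩ : ∃ b' : Cu z → FF M, b' = fun t : Cu z => b z t := ⟨_, rfl⟩
  obtain ⟨htp, hVc⟩ := (lbx ℓ M hM G e V z hZ.blk hZ.tp hzV hcz).2 (b z) hL
  have hS : (IrrE M b').Finite := irr_finite'.subset (fun θ h => h.1)
  obtain ⟨uC, huC⟩ : ∃ uC : Cu z, (uC : G) = z :=
    ⟨⟨z, Subgroup.mem_centralizer_singleton_iff.2 rfl⟩, rfl⟩
  have hcen : ∀ c : Cu z, uC * c = c * uC := by
    intro c
    apply Subtype.ext
    show (uC : G) * c = c * uC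
    rw [huC]
    exact (Subgroup.mem_centralizer_singleton_iff.1 c.2).symm
  obtain ⟨q, hq⟩ : ∃ q : ℕ, q = ℓ ^ a := ⟨_, rfl⟩
  rw [← hq] at hζ hza
  have hq0 : 0 < q := by rw [hq]; exact Nat.pow_pos hp.pos
  have hzq : uC ^ q = 1 := by
    apply Subtype.ext
    rw [Subgroup.coe_pow, huC, hza, Subgroup.coe_one]
  have hzero : NeZero q := ⟨hq0.ne'⟩
  -- the exponents and the multiplicities
  have h1 : ∀ θ ∈ hS.toFinset, ∃ i : ℕ, i < q ∧
      ∀ (j : ℕ) (c : Cu z), θ (uC ^ j * c) = (ζ ^ i) ^ j * θ c := by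
    intro θ hθ
    have hθ' : θ ∈ Irr (Cu z) := (hS.mem_toFinset.1 hθ).1
    obtain ⟨k, hk, hkj⟩ := T3.H63.cent_root hθ' hcen hzq
    obtain ⟨i, hi, rfl⟩ := hζ.eq_pow_of_pow_eq_one hk
    exact ⟨i, hi, hkj⟩
  have h2 : ∀ φ ∈ Irr G, ∀ θ ∈ hS.toFinset, ∃ m : ℤ,
      (Nat.card (Cu z) : ℂ)⁻¹ * ∑ c : Cu z, φ c * θ c⁻¹ = m := by
    intro φ hφ θ hθ
    exact KF.H30.mult_int (Cu z) hφ (hS.mem_toFinset.1 hθ).1
  choose! ix hix hix2 using h1
  choose! mu hmu using h2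
  -- the values
  have hgv : ∀ φ ∈ Irr G, ∀ (j : ℕ) (s : Cu z), gv M (Cu z) (z ^ j * s) (b z) φ =
      ∑ θ ∈ hS.toFinset, (mu φ θ : ℂ) * (ζ ^ ix θ) ^ j * θ s := by
    intro φ hφ j s
    have e1 : gv M (Cu z) (z ^ j * s) (b z) φ = ∑ c : Cu z, eh M b' c * φ (z ^ j * s * c) := by
      rw [gv, gbv, finsum_eq_sum_of_fintype, hb']
    have e2 : ∀ c : Cu z, eh M b' c =
        (Nat.card (Cu z) : ℂ)⁻¹ * ∑ θ ∈ hS.toFinset, θ 1 * θ c⁻¹ := by
      intro c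
      rw [eh, finsum_mem_eq_finite_toFinset_sum _ hS]
    have e3 : gv M (Cu z) (z ^ j * s) (b z) φ = ∑ θ ∈ hS.toFinset, θ 1 *
        ((Nat.card (Cu z) : ℂ)⁻¹ * ∑ c : Cu z, θ c⁻¹ * φ (((uC ^ j * s : Cu z) : G) * c)) := by
      rw [e1]
      simp only [e2]
      have e4 : ((uC ^ j * s : Cu z) : G) = z ^ j * s := by
        rw [Subgroup.coe_mul, Subgroup.coe_pow, huC]
      rw [e4]
      simp_rw [Finset.mul_sum, Finset.sum_mul]
      rw [Finset.sum_comm]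
      refine Finset.sum_congr rfl fun θ _ => Finset.sum_congr rfl fun c _ => ?_
      ring
    rw [e3]
    refine Finset.sum_congr rfl fun θ hθ => ?_
    rw [H92.conv_irr hφ (hS.mem_toFinset.1 hθ).1, hmu φ hφ θ hθ, hix2 θ hθ]
    ring
  -- the form
  obtain ⟨R, hR⟩ : ∃ R : Finset (Cu z), R = Finset.univ.filter (fun s : Cu z => Reg ℓ s) :=
    ⟨_, rfl⟩
  obtain ⟨κ, hκ⟩ : ∃ κ : ℂ, κ = (Nat.card V : ℂ) * (Nat.card (Cu z) : ℂ)⁻¹ := ⟨_, rfl⟩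
  have hrip : ∀ θ ∈ hS.toFinset, ∀ θ' ∈ hS.toFinset, ∃ n : ℤ,
      κ * ∑ s ∈ R, θ s * starRingEnd ℂ (θ' s) = n := by
    intro θ hθ θ' hθ'
    obtain ⟨n, hn⟩ := inq ℓ M hM (Cu z) b' (by rw [hb']; exact hL.bx.blk) _
      (by rw [hb']; exact htp) θ (hS.mem_toFinset.1 hθ) θ' (hS.mem_toFinset.1 hθ')
    refine ⟨n, ?_⟩
    rw [← hn, hVc, rip, H92.finsum_reg', ← hR, hκ]
    ring
  choose! n hn using hrip
  have hζc : starRingEnd ℂ ζ = ζ ^ (q - 1) := by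
    have h1 : ζ ^ q = 1 := hζ.pow_eq_one
    have h3 : ‖ζ‖ = 1 := Complex.norm_eq_one_of_pow_eq_one h1 hq0.ne'
    have h4 : ζ * starRingEnd ℂ ζ = 1 := by
      rw [Complex.mul_conj, Complex.normSq_eq_norm_sq, h3]
      norm_num
    have h5 : ζ * ζ ^ (q - 1) = 1 := by
      rw [← pow_succ', Nat.sub_add_cancel hq0, h1]
    have h6 : ζ ≠ 0 := hζ.ne_zero hq0.ne'
    exact mul_left_cancel₀ h6 (h4.trans h5.symm)
  refine ⟨fun i => ∑ θ ∈ hS.toFinset, ∑ θ' ∈ hS.toFinset,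
    if (ix θ + (q - 1) * ix θ') % q = i then mu χ θ * mu ψ θ' * n θ θ' else 0, ?_⟩
  intro j hj
  obtain ⟨hc1, hc2, -⟩ := (zcp ℓ M hM G e V Z γ b hZ).2.1 z hz j hj
  rw [hc1, hc2, ← hq, mm, H92.finsum_reg, ← hR, ← mul_assoc, ← hκ]
  have e1 : κ * ∑ s ∈ R, gv M (Cu z) (z ^ j * s) (b z) χ *
      starRingEnd ℂ (gv M (Cu z) (z ^ j * s) (b z) ψ) =
      ∑ θ ∈ hS.toFinset, ∑ θ' ∈ hS.toFinset, (mu χ θ : ℂ) * mu ψ θ' *
        ζ ^ (((ix θ + (q - 1) * ix θ') % q) * j) * n θ θ' := by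
    have e2 : ∀ s ∈ R, gv M (Cu z) (z ^ j * s) (b z) χ *
        starRingEnd ℂ (gv M (Cu z) (z ^ j * s) (b z) ψ) =
        ∑ θ ∈ hS.toFinset, ∑ θ' ∈ hS.toFinset, (mu χ θ : ℂ) * mu ψ θ' *
          ζ ^ (((ix θ + (q - 1) * ix θ') % q) * j) * (θ s * starRingEnd ℂ (θ' s)) := by
      intro s _
      rw [hgv χ hχ, hgv ψ hψ, map_sum, Finset.sum_mul_sum]
      refine Finset.sum_congr rfl fun θ _ => Finset.sum_congr rfl fun θ' _ => ?_
      rw [map_mul, map_mul, map_intCast, map_pow, map_pow, hζc]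
      have e3 : ζ ^ (((ix θ + (q - 1) * ix θ') % q) * j) =
          (ζ ^ ix θ) ^ j * ((ζ ^ (q - 1)) ^ ix θ') ^ j := by
        rw [pow_mul, ← pow_mul ζ (q - 1), ← mul_pow, ← pow_add]
        congr 1
        exact (pow_eq_pow_mod _ hζ.pow_eq_one).symm
      rw [e3]
      ring
    rw [Finset.sum_congr rfl e2, Finset.mul_sum]
    simp_rw [Finset.mul_sum]
    rw [Finset.sum_comm]
    refine Finset.sum_congr rfl fun θ hθ => ?_
    rw [Finset.sum_comm]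
    refine Finset.sum_congr rfl fun θ' hθ' => ?_
    rw [← hn θ hθ θ' hθ', Finset.mul_sum, Finset.mul_sum]
    refine Finset.sum_congr rfl fun s _ => ?_
    ring
  rw [e1]
  have e4 : ∀ i ∈ Finset.range q, (((∑ θ ∈ hS.toFinset, ∑ θ' ∈ hS.toFinset,
      if (ix θ + (q - 1) * ix θ') % q = i then mu χ θ * mu ψ θ' * n θ θ' else 0 : ℤ)) : ℂ) *
      ζ ^ (i * j) = ∑ θ ∈ hS.toFinset, ∑ θ' ∈ hS.toFinset,
        if (ix θ + (q - 1) * ix θ') % q = i then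
          (mu χ θ : ℂ) * mu ψ θ' * n θ θ' * ζ ^ (i * j) else 0 := by
    intro i _
    push_cast
    rw [Finset.sum_mul]
    refine Finset.sum_congr rfl fun θ _ => ?_
    rw [Finset.sum_mul]
    refine Finset.sum_congr rfl fun θ' _ => ?_
    split_ifs
    · ring
    · rw [zero_mul]
  refine Eq.trans ?_ (Finset.sum_congr rfl e4).symm
  rw [Finset.sum_comm (s := Finset.range q)]
  refine Finset.sum_congr rfl fun θ _ => ?_
  rw [Finset.sum_comm (s := Finset.range q)]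
  refine Finset.sum_congr rfl fun θ' _ => ?_
  rw [Finset.sum_ite_eq, if_pos (Finset.mem_range.2 (Nat.mod_lt _ hq0))]
  ring

end Pool.Agent.PP.TB.H76
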